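import Mathlib

namespace Pool.Agent.H.MP_bcad5b_nt

open Finset

def cost (m : ℕ) : ℕ := ∑ p ∈ m.primeFactors, p ^ m.factorization p

theorem sum_le_prod (s : Finset ℕ) (f : ℕ → ℕ) (h : ∀ i ∈ s, 2 ≤ f i) :
    ∑ i ∈ s, f i ≤ ∏ i ∈ s, f i := by
  induction s using Finset.induction_on with
  | empty => simp
  | insert a s ha ih =>
    rw [sum_insert ha, prod_insert ha]
    rcases s.eq_empty_or_nonempty with rfl | ⟨b, hb⟩
    · simp
    · have h1 := ih (fun i hi => h i (mem_insert_of_mem hi))
      have h2 : 2 ≤ ∑ i ∈ s, f i :=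
        (h b (mem_insert_of_mem hb)).trans (single_le_sum (fun _ _ => Nat.zero_le _) hb)
      have := Nat.add_le_mul (h a (mem_insert_self _ _)) (h2.trans h1)
      omega

theorem vpos {m p : ℕ} : p ∈ m.primeFactors ↔ m.factorization p ≠ 0 := by
  rw [← Nat.support_factorization, Finsupp.mem_support_iff]

theorem prod_eq {m : ℕ} (hm : m ≠ 0) : ∏ p ∈ m.primeFactors, p ^ m.factorization p = m :=
  Nat.prod_factorization_pow_eq_self hm

theorem cost_le {m : ℕ} (hm : m ≠ 0) : cost m ≤ m := by
  refine (sum_le_prod _ _ fun p hp => ?_).trans (prod_eq hm).le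
  exact (Nat.prime_of_mem_primeFactors hp).two_le.trans (Nat.le_self_pow (vpos.1 hp) p)

theorem cost_lcm {a b : ℕ} (ha : a ≠ 0) (hb : b ≠ 0) : cost (a.lcm b) ≤ cost a + cost b := by
  have k : ∀ x : ℕ, ∑ p ∈ (a.lcm b).primeFactors,
      (if p ∈ x.primeFactors then p ^ x.factorization p else 0) ≤ cost x := fun x => by
    rw [sum_ite_mem]; exact sum_le_sum_of_subset inter_subset_right
  refine le_trans ?_ (add_le_add (k a) (k b))
  rw [← sum_add_distrib]
  refine sum_le_sum fun p hp => ?_
  have h := vpos.1 hp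
  rw [Nat.factorization_lcm ha hb, Finsupp.sup_apply] at h ⊢
  rcases le_total (a.factorization p) (b.factorization p) with c | c
  · rw [sup_eq_right.2 c] at h ⊢
    rw [if_pos (vpos.2 h)]; omega
  · rw [sup_eq_left.2 c] at h ⊢
    rw [if_pos (vpos.2 h)]; omega

theorem cost_ms (s : Multiset ℕ) : (∀ x ∈ s, x ≠ 0) → s.lcm ≠ 0 ∧ cost s.lcm ≤ s.sum := by
  induction s using Multiset.induction_on with
  | empty => intro _; simp [cost]
  | cons a s ih =>
    intro h
    obtain ⟨h1, h2⟩ := ih fun x hx => h x (Multiset.mem_cons_of_mem hx)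
    have ha := h a (Multiset.mem_cons_self _ _)
    rw [Multiset.lcm_cons, Multiset.sum_cons, lcm_eq_nat_lcm]
    exact ⟨Nat.lcm_ne_zero ha h1, (cost_lcm ha h1).trans (add_le_add (cost_le ha) h2)⟩

theorem cost_order {n : ℕ} (σ : Equiv.Perm (Fin n)) : orderOf σ ≠ 0 ∧ cost (orderOf σ) ≤ n := by
  have h := cost_ms σ.cycleType fun x hx => by
    have := Equiv.Perm.two_le_of_mem_cycleType hx; omega
  rw [Equiv.Perm.lcm_cycleType] at h
  exact ⟨h.1, h.2.trans (by simpa using σ.sum_cycleType_le)⟩

def cnt : List (List ℕ) → ℕ → ℕ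
  | [], _ => 1
  | o :: os, n => (o.map fun c => if c ≤ n then cnt os (n - c) else 0).sum

def ps : List (List ℕ) → ℕ → List ℕ
  | [], _ => [1]
  | o :: os, n => o.flatMap fun c => if c ≤ n then (ps os (n - c)).map (max c 1 * ·) else []

theorem len_ps : ∀ os n, (ps os n).length = cnt os n
  | [], _ => rfl
  | o :: os, n => by
    rw [ps, cnt, List.length_flatMap]
    congr 1
    refine List.map_congr_left fun c _ => ?_
    split_ifs
    · rw [List.length_map, len_ps]
    · rfl

theorem mem_ps (opt : ℕ → List ℕ) (c : ℕ → ℕ) : ∀ (l : List ℕ) (n : ℕ), (∀ i ∈ l, c i ∈ opt i) →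
    (l.map c).sum ≤ n → (l.map fun i => max (c i) 1).prod ∈ ps (l.map opt) n
  | [], _, _, _ => by simp [ps]
  | i :: l, n, h, hs => by
    simp only [List.map_cons, List.sum_cons, List.prod_cons, ps, List.mem_flatMap] at hs ⊢
    refine ⟨c i, h i (by simp), ?_⟩
    rw [if_pos (by omega)]
    exact List.mem_map.2 ⟨_, mem_ps opt c l (n - c i) (fun j hj => h j (by simp [hj])) (by omega),
      rfl⟩

def ok (q : ℕ) : Bool := decide (2 ≤ q) && Nat.gcd q 210 == 1

def Q : ℕ → List ℕ
  | 0 => []
  | N + 1 => if ok (N + 1) then (N + 1) :: Q N else Q N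

theorem mem_Q {q : ℕ} : ∀ {N : ℕ}, q ∈ Q N ↔ q ≤ N ∧ ok q = true
  | 0 => by simp only [Q, List.not_mem_nil, Nat.le_zero, false_iff, not_and]; rintro rfl; decide
  | N + 1 => by
    rw [Q]
    split_ifs with h
    · rw [List.mem_cons, mem_Q]
      constructor
      · rintro (rfl | ⟨h1, h2⟩)
        · exact ⟨le_rfl, h⟩
        · exact ⟨by omega, h2⟩
      · rintro ⟨h1, h2⟩
        rcases h1.eq_or_lt with e | e
        · exact .inl e
        · exact .inr ⟨by omega, h2⟩
    · rw [mem_Q]
      constructor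
      · rintro ⟨h1, h2⟩; exact ⟨by omega, h2⟩
      · rintro ⟨h1, h2⟩
        rcases h1.eq_or_lt with e | e
        · exact absurd (e ▸ h2) h
        · exact ⟨by omega, h2⟩

theorem nodup_Q : ∀ N, (Q N).Nodup
  | 0 => List.nodup_nil
  | N + 1 => by
    rw [Q]
    split_ifs
    · exact List.nodup_cons.2 ⟨fun h => by have := (mem_Q.1 h).1; omega, nodup_Q N⟩
    · exact nodup_Q N

theorem ok_ge {q : ℕ} (h : ok q = true) : 11 ≤ q := by
  by_contra c
  have : q < 11 := by omega
  interval_cases q <;> revert h <;> decide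

def pw (p N : ℕ) : List ℕ := 0 :: (List.range (Nat.log p N)).map fun k => p ^ (k + 1)

def small (N : ℕ) : List (List ℕ) := [pw 2 N, pw 3 N, pw 5 N, pw 7 N]

def os (N : ℕ) : List (List ℕ) := ((Q N).map fun q => [0, q]) ++ small N

theorem mem_os {m n N : ℕ} (hm : m ≠ 0) (hc : cost m ≤ n) (hn : n ≤ N) : m ∈ ps (os N) n := by
  let opt : ℕ → List ℕ := fun i => if i ≤ 7 then pw i N else [0, i]
  let l := Q N ++ [2, 3, 5, 7]
  have e : os N = l.map opt := by
    simp only [os, l, List.map_append]
    congr 1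
    refine List.map_congr_left fun q hq => ?_
    have := ok_ge (mem_Q.1 hq).2
    simp only [opt]; rw [if_neg (by omega)]
  have nd : l.Nodup := by
    refine List.nodup_append.2 ⟨nodup_Q N, by decide, fun a ha b hb e => ?_⟩
    have := ok_ge (mem_Q.1 ha).2
    simp only [List.mem_cons, List.not_mem_nil, or_false] at hb
    omega
  let g : ℕ → ℕ := fun p => if p ≤ 7 then p else p ^ m.factorization p
  have le1 : ∀ p ∈ m.primeFactors, p ≤ p ^ m.factorization p := fun p hp =>
    Nat.le_self_pow (vpos.1 hp) p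
  have le2 : ∀ p ∈ m.primeFactors, p ^ m.factorization p ≤ N := fun p hp =>
    (single_le_sum (f := fun p => p ^ m.factorization p) (fun _ _ => Nat.zero_le _) hp).trans
      (hc.trans hn)
  have mt : ∀ p ∈ m.primeFactors, g p ∈ l.toFinset := fun p hp => by
    have pp := Nat.prime_of_mem_primeFactors hp
    simp only [l, g, List.mem_toFinset, List.mem_append]
    split_ifs with h
    · right; interval_cases p <;> first | decide | exact absurd pp (by decide)
    · left
      have := le1 p hp
      refine mem_Q.2 ⟨le2 p hp, ?_⟩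
      simp only [ok, Bool.and_eq_true, decide_eq_true_eq, beq_iff_eq]
      refine ⟨by omega, Nat.Coprime.pow_left _ (pp.coprime_iff_not_dvd.2 fun d => ?_)⟩
      rw [show 210 = 2 * (3 * (5 * 7)) by rfl, pp.dvd_mul, pp.dvd_mul, pp.dvd_mul] at d
      rcases d with d | d | d | d <;> have := Nat.le_of_dvd (by norm_num) d <;> omega
  have inj : ∀ p ∈ m.primeFactors, ∀ r ∈ m.primeFactors, g p = g r → p = r := fun p hp r hr h => by
    have := le1 p hp
    have := le1 r hr
    simp only [g] at h
    split_ifs at h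
    · exact h
    · omega
    · omega
    · have pp := Nat.prime_of_mem_primeFactors hp
      exact (Nat.prime_dvd_prime_iff_eq pp (Nat.prime_of_mem_primeFactors hr)).1
        (pp.dvd_of_dvd_pow (h ▸ dvd_pow_self p (vpos.1 hp)))
  have fib : ∀ i, m.primeFactors.filter (g · = i) = ∅ ∨
      ∃ p ∈ m.primeFactors, g p = i ∧ m.primeFactors.filter (g · = i) = {p} := fun i => by
    rcases (m.primeFactors.filter (g · = i)).eq_empty_or_nonempty with h | ⟨p, hp⟩
    · exact .inl h
    · have hp' := mem_filter.1 hp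
      refine .inr ⟨p, hp'.1, hp'.2, eq_singleton_iff_unique_mem.2 ⟨hp, fun r hr => ?_⟩⟩
      have hr' := mem_filter.1 hr
      exact inj r hr'.1 p hp'.1 (hr'.2.trans hp'.2.symm)
  let c : ℕ → ℕ := fun i => ∑ p ∈ m.primeFactors.filter (g · = i), p ^ m.factorization p
  have key := mem_ps opt c l n (fun i _ => ?_) ?_
  · rw [← List.prod_toFinset _ nd, ← e] at key
    convert key using 1
    rw [← prod_eq hm, ← prod_fiberwise_of_maps_to mt]
    refine prod_congr rfl fun i _ => ?_
    rcases fib i with h | ⟨p, hp, -, h⟩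
    · simp only [c, h]; simp
    · simp only [c, h, sum_singleton, prod_singleton]
      exact (max_eq_left (Nat.one_le_pow _ _ (Nat.prime_of_mem_primeFactors hp).pos)).symm
  · rcases fib i with h | ⟨p, hp, rfl, h⟩
    · simp only [c, h, opt, pw]; split_ifs <;> simp
    · have := le1 p hp
      simp only [c, h, sum_singleton]
      simp only [opt, g]
      by_cases h7 : p ≤ 7
      · simp only [if_pos h7, pw]
        have v := vpos.1 hp
        refine List.mem_cons_of_mem _ (List.mem_map.2 ⟨m.factorization p - 1, ?_, ?_⟩)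
        · have := Nat.le_log_of_pow_le (Nat.prime_of_mem_primeFactors hp).one_lt (le2 p hp)
          rw [List.mem_range]; omega
        · rw [Nat.sub_add_cancel (by omega)]
      · rw [if_neg h7, if_neg (by omega)]; simp
  · rw [← List.sum_toFinset _ nd, sum_fiberwise_of_maps_to mt]
    exact hc

theorem card_le {n N : ℕ} (hn : n ≤ N) :
    (univ.image (orderOf : Equiv.Perm (Fin n) → ℕ)).card ≤ cnt (os N) n := by
  rw [← len_ps]
  refine (card_le_card fun m hm => ?_).trans (List.toFinset_card_le _)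
  obtain ⟨σ, -, rfl⟩ := mem_image.1 hm
  exact List.mem_toFinset.2 (mem_os (cost_order σ).1 (cost_order σ).2 hn)

end Pool.Agent.H.MP_bcad5b_nt
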