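import Pool.Agent.H.MP_bcad5b_nt.A

namespace Pool.Agent.H.MP_bcad5b_nt

open Finset Real

theorem rankin (y : ℝ) (h0 : 0 ≤ y) (h1 : y ≤ 1) : ∀ (os : List (List ℕ)) (n : ℕ),
    (cnt os n : ℝ) * y ^ n ≤ (os.map fun o => (o.map fun c => y ^ c).sum).prod
  | [], n => by simpa [cnt] using pow_le_one₀ h0 h1
  | o :: os, n => by
    rw [cnt, List.map_cons, List.prod_cons]
    induction o with
    | nil => simp
    | cons c o ih =>
      simp only [List.map_cons, List.sum_cons, Nat.cast_add, add_mul]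
      refine add_le_add ?_ ih
      have r := rankin y h0 h1 os (n - c)
      split_ifs with h
      · rw [show y ^ n = y ^ c * y ^ (n - c) by rw [← pow_add, Nat.add_sub_cancel' h], mul_left_comm]
        exact mul_le_mul_of_nonneg_left r (pow_nonneg h0 _)
      · rw [Nat.cast_zero, zero_mul]
        exact mul_nonneg (pow_nonneg h0 _) (le_trans (by positivity) r)

theorem len_per (N : ℕ) : (Q (N + 1 + 210)).length = (Q (N + 1)).length + 48 := by
  induction N with
  | zero => decide +kernel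
  | succ N ih =>
    have e : ok (N + 1 + 210 + 1) = ok (N + 1 + 1) := by
      simp only [ok]
      rw [show N + 1 + 210 + 1 = N + 1 + 1 + 210 by ring, Nat.gcd_add_self_left]
      simp
    rw [show N + 1 + 1 + 210 = N + 1 + 210 + 1 by ring, Q, e, Q.eq_2 (N + 1)]
    split_ifs
    · simp [ih]
    · exact ih

theorem len_le (N : ℕ) : 35 * (Q N).length ≤ 8 * N + 35 := by
  induction N using Nat.strong_induction_on with
  | _ N ih =>
    by_cases h : N < 211
    · clear ih; revert N; decide +kernel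
    · obtain ⟨M, rfl⟩ : ∃ M, N = M + 1 + 210 := ⟨N - 211, by omega⟩
      have := ih (M + 1) (by omega)
      rw [len_per]; omega

theorem one_add_le {x : ℝ} (h0 : 0 ≤ x) (h1 : x ≤ 1) : 1 + x ≤ exp (x - 3 / 10 * x ^ 2) := by
  have := sum_le_exp_of_nonneg (x := x - 3 / 10 * x ^ 2) (by nlinarith) 4
  simp only [sum_range_succ, sum_range_zero, Nat.factorial] at this
  refine le_trans ?_ this
  have a : x ^ 2 ≤ x := by nlinarith
  have b : 3 * x - 2 ≤ x ^ 3 := by nlinarith [mul_nonneg (sq_nonneg (x - 1)) (by linarith : 0 ≤ x + 2)]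
  have c : x ^ 4 ≤ x ^ 3 := pow_le_pow_of_le_one h0 h1 (by norm_num)
  have d : 0 ≤ x ^ 2 * (1 / 5 - 2 / 15 * x - 21 / 200 * x ^ 2 + 9 / 200 * x ^ 3 - 9 / 2000 * x ^ 4) :=
    mul_nonneg (sq_nonneg x) (by nlinarith [pow_nonneg h0 3])
  push_cast
  nlinarith

noncomputable def F (w : ℝ) (j : ℕ) : ℝ := w ^ j / (1 - w) - 3 / 10 * (w ^ j) ^ 2 / (1 - w ^ 2)

theorem F_step {w : ℝ} (h0 : 0 ≤ w) (h1 : w < 1) (j : ℕ) :
    F w j - F w (j + 1) = w ^ j - 3 / 10 * (w ^ j) ^ 2 := by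
  have a : 1 - w ≠ 0 := by linarith
  have b : 1 - w ^ 2 ≠ 0 := by nlinarith
  simp only [F, pow_succ w j]
  field_simp
  ring

theorem F_nonneg {w : ℝ} (h0 : 0 ≤ w) (h1 : w < 1) (j : ℕ) : 0 ≤ F w j := by
  have a : 0 < 1 - w := by linarith
  have b : 0 < 1 - w ^ 2 := by nlinarith
  have c : w ^ j ≤ 1 := pow_le_one₀ h0 h1.le
  have d : 0 ≤ w ^ j := pow_nonneg h0 j
  rw [F, sub_nonneg, div_le_div_iff₀ b a]
  have : (w ^ j) ^ 2 ≤ w ^ j := by nlinarith
  have e : 1 - w ≤ 1 - w ^ 2 := by nlinarith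
  nlinarith [mul_le_mul this e a.le d]

theorem prodQ {z : ℝ} (h0 : 0 ≤ z) (h1 : z < 1) (N : ℕ) :
    ((Q N).map fun q => 1 + (z ^ 8) ^ q).prod ≤
      exp (F (z ^ 35) 0 - F (z ^ 35) (Q N).length) := by
  have w0 : 0 ≤ z ^ 35 := pow_nonneg h0 _
  have w1 : z ^ 35 < 1 := pow_lt_one₀ h0 h1 (by norm_num)
  induction N with
  | zero => simp [Q]
  | succ N ih =>
    have hl := len_le (N + 1)
    rw [Q] at hl ⊢
    split_ifs at hl ⊢ with h
    · rw [List.map_cons, List.prod_cons, List.length_cons] at *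
      have a : (z ^ 8) ^ (N + 1) ≤ (z ^ 35) ^ (Q N).length := by
        rw [← pow_mul, ← pow_mul]; exact pow_le_pow_of_le_one h0 h1.le (by omega)
      have b := one_add_le (pow_nonneg w0 (Q N).length) (pow_le_one₀ w0 w1.le)
      rw [← F_step w0 w1] at b
      refine (mul_le_mul ((add_le_add_right a 1).trans b) ih
        (List.prod_nonneg fun x hx => ?_) (exp_nonneg _)).trans_eq ?_
      · obtain ⟨q, -, rfl⟩ := List.mem_map.1 hx; positivity
      · rw [← exp_add]; congr 1; ring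
    · exact ih

theorem F_one {u : ℝ} (hu : 0 < u) : F (exp (-u)) 0 ≤ 17 / 20 / u + 1 := by
  have a := add_one_le_exp u
  have b := add_one_le_exp (-u + -u)
  have w0 := exp_pos (-u)
  have w1 : exp (-u) < 1 := exp_lt_one_iff.2 (by linarith)
  have e : exp (-u) * exp u = 1 := by rw [← exp_add]; simp
  rw [exp_add, ← sq] at b
  have c : exp (-u) / (1 - exp (-u)) ≤ 1 / u := by
    rw [div_le_div_iff₀ (by linarith) hu]; nlinarith
  have d : 1 / (2 * u) - 1 ≤ exp (-u) ^ 2 / (1 - exp (-u) ^ 2) := by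
    have p : 0 < 1 - exp (-u) ^ 2 := by nlinarith
    rw [le_div_iff₀ p, sub_mul, div_mul_eq_mul_div, sub_le_iff_le_add, div_le_iff₀ (by linarith)]
    nlinarith
  have g := F_step w0.le w1 0
  rw [zero_add, F.eq_1 _ 1, pow_one, mul_div_assoc, pow_zero] at g
  have : 17 / 20 / u = 1 / u - 3 / 10 * (1 / (2 * u)) := by field_simp; norm_num
  linarith

theorem pw_le {y : ℝ} (h0 : 0 ≤ y) (h1 : y ≤ 1) {p : ℕ} (hp : 2 ≤ p) (N : ℕ) :
    0 ≤ ((pw p N).map fun c => y ^ c).sum ∧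
      ((pw p N).map fun c => y ^ c).sum ≤ 1 + Nat.log 2 N := by
  refine ⟨List.sum_nonneg fun x hx => ?_, (List.sum_le_card_nsmul _ 1 fun x hx => ?_).trans ?_⟩
  · obtain ⟨q, -, rfl⟩ := List.mem_map.1 hx; positivity
  · obtain ⟨q, -, rfl⟩ := List.mem_map.1 hx; exact pow_le_one₀ h0 h1
  · have : (Nat.log p N : ℝ) ≤ Nat.log 2 N := by
      exact_mod_cast Nat.log_anti_left (by norm_num) hp
    simp [pw]; linarith

theorem pow_ge (k : ℕ) : (103 + 3 * k) ^ 2 ≤ 2 ^ (14 + k) := by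
  induction k with
  | zero => norm_num
  | succ k ih => rw [← add_assoc, pow_succ 2]; nlinarith [Nat.zero_le (k ^ 2), Nat.zero_le k]

theorem log_le {N : ℕ} (hN : 10000 ≤ N) :
    (1 + Nat.log 2 N : ℝ) ≤ exp (29 / 1000 * √N - 1 / 4) := by
  have s1 : (100 : ℝ) ≤ √N := le_sqrt_of_sq_le (by exact_mod_cast hN)
  have s2 : 61 + 3 * (Nat.log 2 N : ℝ) ≤ √N := by
    by_cases h : Nat.log 2 N ≤ 13
    · have : (Nat.log 2 N : ℝ) ≤ 13 := by exact_mod_cast h
      linarith
    · obtain ⟨k, hk⟩ : ∃ k, Nat.log 2 N = 14 + k := ⟨Nat.log 2 N - 14, by omega⟩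
      have a := (pow_ge k).trans (hk ▸ Nat.pow_log_le_self 2 (by omega : N ≠ 0))
      refine le_sqrt_of_sq_le ?_
      rw [hk]
      have : ((103 + 3 * k) ^ 2 : ℝ) ≤ N := by exact_mod_cast a
      push_cast; convert this using 2; ring
  have a := sum_le_exp_of_nonneg (x := 53 / 20) (by norm_num) 8
  simp only [sum_range_succ, sum_range_zero, Nat.factorial] at a
  have a' : 14 ≤ exp (53 / 20) := le_trans (by norm_num) a
  have b := add_one_le_exp (29 / 1000 * (√N - 100))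
  rw [show 29 / 1000 * √N - 1 / 4 = 53 / 20 + 29 / 1000 * (√N - 100) by ring, exp_add]
  refine le_trans ?_ (mul_le_mul a' b (by linarith) (exp_nonneg _))
  linarith

theorem big {n N : ℕ} (hN : 10000 ≤ N) (hn : n ≤ N) : (cnt (os N) n : ℝ) ≤ exp √N := by
  have s1 : (100 : ℝ) ≤ √N := le_sqrt_of_sq_le (by exact_mod_cast hN)
  have s2 : √N * √N = N := mul_self_sqrt (Nat.cast_nonneg N)
  have lg := log_le hN
  generalize √(N : ℝ) = s at *
  have s0 : 0 < s := by linarith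
  set z := exp (-(1 / (18 * s))) with hz
  have z0 : 0 < z := exp_pos _
  have z1 : z < 1 := exp_lt_one_iff.2 (neg_lt_zero.2 (by positivity))
  have y0 : 0 ≤ z ^ 8 := by positivity
  have y1 : z ^ 8 ≤ 1 := pow_le_one₀ z0.le z1.le
  have r := rankin _ y0 y1 (os N) n
  have q := prodQ z0.le z1 N
  have f1 := F_nonneg (pow_nonneg z0.le 35) (pow_lt_one₀ z0.le z1 (by norm_num : 35 ≠ 0)) (Q N).length
  have f2 := F_one (u := 35 / (18 * s)) (by positivity)
  rw [show exp (-(35 / (18 * s))) = z ^ 35 by rw [hz, ← exp_nat_mul]; congr 1; push_cast; ring,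
    show 17 / 20 / (35 / (18 * s)) = 153 / 350 * s by field_simp; norm_num] at f2
  have q' := q.trans (exp_le_exp.2 (by linarith : _ ≤ 153 / 350 * s + 1))
  have e : exp (-(4 / 9 * s)) ≤ (z ^ 8) ^ n := by
    refine le_trans (le_of_eq ?_) (pow_le_pow_of_le_one y0 y1 hn)
    rw [hz, ← exp_nat_mul, ← exp_nat_mul, ← s2]; congr 1; push_cast; field_simp; norm_num
  simp only [os, small, List.map_append, List.prod_append, List.map_map, List.map_cons,
    List.prod_cons, List.map_nil, List.prod_nil, Function.comp_def, List.sum_cons, List.sum_nil,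
    pow_zero, add_zero, mul_one] at r
  obtain ⟨a2, b2⟩ := pw_le y0 y1 (by norm_num : 2 ≤ 2) N
  obtain ⟨a3, b3⟩ := pw_le y0 y1 (by norm_num : 2 ≤ 3) N
  obtain ⟨a5, b5⟩ := pw_le y0 y1 (by norm_num : 2 ≤ 5) N
  obtain ⟨a7, b7⟩ := pw_le y0 y1 (by norm_num : 2 ≤ 7) N
  have t := r.trans (mul_le_mul q' (mul_le_mul (b2.trans lg) (mul_le_mul (b3.trans lg)
    (mul_le_mul (b5.trans lg) (b7.trans lg) a7 (exp_nonneg _)) (by positivity) (exp_nonneg _))
    (by positivity) (exp_nonneg _)) (by positivity) (exp_nonneg _))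
  have t2 := (mul_le_mul_of_nonneg_left e (Nat.cast_nonneg _)).trans t
  rw [exp_neg, ← div_eq_mul_inv, div_le_iff₀ (exp_pos _)] at t2
  simp only [← exp_add] at t2
  exact t2.trans (exp_le_exp.2 (by linarith))

end Pool.Agent.H.MP_bcad5b_nt
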