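import Pool.Agent.H.MP_bcad5b_nt.B

namespace Pool.Agent.H.MP_bcad5b_nt

open Finset

theorem dig_sum (b : ℕ) (i : ℕ) : ∀ (d : ℕ → ℕ) (n : ℕ), (∀ j < n, d j < b) → i < n →
    (∑ j ∈ range n, d j * b ^ j) / b ^ i % b = d i := by
  induction i with
  | zero =>
    intro d n hd hn
    obtain ⟨n, rfl⟩ := Nat.exists_eq_add_one_of_ne_zero hn.ne'
    rw [sum_range_succ']
    simp only [pow_succ, ← mul_assoc, ← sum_mul, pow_zero, mul_one, Nat.div_one,
      Nat.mul_add_mod_self_right]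
    exact Nat.mod_eq_of_lt (hd 0 hn)
  | succ i ih =>
    intro d n hd hn
    obtain ⟨n, rfl⟩ := Nat.exists_eq_add_one_of_ne_zero (by omega : n ≠ 0)
    have h0 := hd 0 (by omega)
    rw [sum_range_succ', pow_succ', ← Nat.div_div_eq_div_mul]
    simp only [pow_succ, ← mul_assoc, ← sum_mul, pow_zero, mul_one]
    rw [add_comm, Nat.add_mul_div_right _ _ (by omega), Nat.div_eq_of_lt h0, zero_add]
    exact ih (fun j => d (j + 1)) n (fun j hj => hd _ (by omega)) (by omega)

def fN {α : Type} (n : ℕ) (k : ℕ → α) : α := match n with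
  | 0 => k 0
  | m + 1 => k (m + 1)

theorem fN_eq {α : Type} (n : ℕ) (k : ℕ → α) : fN n k = k n := by cases n <;> rfl

def V (B L : ℕ) (os : List (List ℕ)) : ℕ := ∑ n ∈ range L, cnt os n * (2 ^ B) ^ n

theorem shift (b L c : ℕ) (a : ℕ → ℕ) : (∑ n ∈ range L, a n * b ^ n) * b ^ c ≡
    ∑ n ∈ range L, (if c ≤ n then a (n - c) else 0) * b ^ n [MOD b ^ L] := by
  have e1 : ∑ n ∈ range (c + L), (if c ≤ n then a (n - c) else 0) * b ^ n =
      (∑ n ∈ range L, a n * b ^ n) * b ^ c := by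
    rw [sum_range_add, sum_eq_zero fun n hn => by rw [if_neg (by simpa using hn), zero_mul],
      zero_add, sum_mul]
    refine sum_congr rfl fun n _ => ?_
    rw [if_pos (by omega), Nat.add_sub_cancel_left]; ring
  rw [← e1, add_comm, sum_range_add]
  refine (Nat.ModEq.add_left _ (Nat.modEq_zero_iff_dvd.2 (dvd_sum fun n _ => ?_))).trans
    (by rw [add_zero])
  exact Dvd.dvd.mul_left (pow_dvd_pow _ (by omega)) _

def stp (B M X : ℕ) (o : List ℕ) : ℕ := (o.map fun c => X <<< (B * c)).sum &&& M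

theorem stp_spec {B L X : ℕ} {os : List (List ℕ)} (h : X ≡ V B L os [MOD (2 ^ B) ^ L])
    (o : List ℕ) : stp B (2 ^ (B * L) - 1) X o ≡ V B L (o :: os) [MOD (2 ^ B) ^ L] := by
  rw [stp, Nat.and_two_pow_sub_one_eq_mod, pow_mul]
  refine (Nat.mod_modEq _ _).trans ?_
  simp only [V, cnt]
  induction o with
  | nil => simp [Nat.ModEq]
  | cons c o ih =>
    simp only [List.map_cons, List.sum_cons, add_mul, sum_add_distrib]
    refine Nat.ModEq.add ?_ ih
    rw [Nat.shiftLeft_eq, pow_mul]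
    exact (h.mul_right _).trans (shift _ _ _ _)

def runL (B M X : ℕ) : List (List ℕ) → ℕ
  | [] => X
  | o :: os => fN (runL B M X os) fun Y => stp B M Y o

theorem runL_spec {B L X : ℕ} (h : X ≡ V B L [] [MOD (2 ^ B) ^ L]) :
    ∀ os, runL B (2 ^ (B * L) - 1) X os ≡ V B L os [MOD (2 ^ B) ^ L]
  | [] => h
  | o :: os => by rw [runL, fN_eq]; exact stp_spec (runL_spec h os) o

def frc {α : Type} (n : ℕ) (k : ℕ → α) : α := bif Nat.ble n 0 then k n else k n

theorem frc_eq {α : Type} (n : ℕ) (k : ℕ → α) : frc n k = k n := by simp [frc]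

def loop (B M : ℕ) : ℕ → ℕ → ℕ → ℕ
  | 0, _, X => X
  | f + 1, q, X => fN (q + 1) fun r => bif ok r then
      frc (Nat.land (Nat.add X (Nat.shiftLeft X (Nat.mul B r))) M) fun Y =>
        loop B M f r Y else loop B M f r X

theorem loop_spec {B L : ℕ} (tl : List (List ℕ)) : ∀ f q X,
    X ≡ V B L (((Q q).map fun q => [0, q]) ++ tl) [MOD (2 ^ B) ^ L] →
    loop B (2 ^ (B * L) - 1) f q X ≡ V B L (((Q (q + f)).map fun q => [0, q]) ++ tl)
      [MOD (2 ^ B) ^ L]
  | 0, _, _, h => h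
  | f + 1, q, X, h => by
    rw [loop, fN_eq, frc_eq, show q + (f + 1) = q + 1 + f by ring, Bool.cond_eq_ite]
    split_ifs with c <;> refine loop_spec tl f _ _ ?_ <;> rw [Q]
    · rw [if_pos c]
      exact stp_spec h [0, q + 1]
    · rwa [if_neg c]

def dg (B Z n : ℕ) : ℕ := fN (n / 100) fun j =>
  (Nat.land (Nat.shiftRight Z (B * 100 * j)) (2 ^ (B * 100) - 1)) >>> (B * (n % 100)) % 2 ^ B

theorem dg_eq (B Z n : ℕ) : dg B Z n = Z / (2 ^ B) ^ n % 2 ^ B := by
  rw [dg, fN_eq, Nat.land_eq, Nat.shiftRight_eq, Nat.and_two_pow_sub_one_eq_mod, ← pow_mul,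
    ← Nat.shiftRight_eq_div_pow]
  refine Nat.eq_of_testBit_eq fun i => ?_
  simp only [Nat.testBit_mod_two_pow, Nat.testBit_shiftRight]
  by_cases h : i < B
  · have a : B * (n % 100) + i < B * 100 := by
      have : B * (n % 100) ≤ B * 99 := Nat.mul_le_mul_left _ (by omega)
      omega
    rw [decide_eq_true a, Bool.true_and, ← add_assoc, mul_assoc, ← mul_add, Nat.div_add_mod]
  · simp [h]

def chk (B N Z : ℕ) : ℕ → ℕ → ℕ → ℕ → Bool
  | 0, _, _, _ => false
  | f + 1, n, s, W =>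
    if N < n then true else
    if (s + 1) ^ 2 ≤ 10000 * n then
      fN (s + 1) fun s => fN (W * 20201 / 20000) fun W => chk B N Z f n s W
    else decide (dg B Z n * 1000000000000 ≤ W) && fN (n + 1) fun n => chk B N Z f n s W

theorem chk_spec (B N Z : ℕ) : ∀ f n s W, chk B N Z f n s W = true → s ^ 2 ≤ 10000 * n →
    (W : ℝ) ≤ 1000000000000 * Real.exp (s / 100) → ∀ k, n ≤ k → k ≤ N →
      (dg B Z k : ℝ) ≤ Real.exp √k
  | 0, _, _, _, h, _, _, _, _, _ => by simp [chk] at h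
  | f + 1, n, s, W, h, hs, hW, k, hn, hk => by
    rw [chk, if_neg (by omega)] at h
    split_ifs at h with c
    · rw [fN_eq, fN_eq] at h
      refine chk_spec B N Z f n _ _ h c (Nat.cast_div_le.trans ?_) k hn hk
      have a := Real.sum_le_exp_of_nonneg (x := 1 / 100) (by norm_num) 3
      simp only [sum_range_succ, sum_range_zero, Nat.factorial] at a
      have a' : (20201 / 20000 : ℝ) ≤ Real.exp (1 / 100) := le_trans (by norm_num) a
      push_cast
      rw [add_div, Real.exp_add, ← mul_assoc, mul_div_assoc]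
      exact mul_le_mul hW a' (by norm_num) (by positivity)
    · rw [Bool.and_eq_true, fN_eq, decide_eq_true_eq] at h
      rcases hn.eq_or_lt with rfl | hn
      · have h1 : (dg B Z n : ℝ) * 1000000000000 ≤ W := by exact_mod_cast h.1
        have h2 : (s / 100 : ℝ) ≤ √n := Real.le_sqrt_of_sq_le (by
          have : (s ^ 2 : ℝ) ≤ 10000 * n := by exact_mod_cast hs
          rw [div_pow]; linarith)
        have := Real.exp_le_exp.2 h2
        linarith
      · exact chk_spec B N Z f _ _ _ h.2 (by omega) hW k hn hk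

def test (B N L f : ℕ) : Bool :=
  fN (2 ^ (B * L) - 1) fun M => fN (M / (2 ^ B - 1)) fun X => fN (runL B M X (small N)) fun Y =>
    fN (loop B M N 0 Y) fun Z => chk B N Z f 0 0 1000000000000

theorem test_spec {B N L f : ℕ} (hB : 1 ≤ B) (hL : L = N + 1)
    (hb : ∀ n ≤ N, cnt (os N) n < 2 ^ B) (h : test B N L f = true) {n : ℕ} (hn : n ≤ N) :
    (cnt (os N) n : ℝ) ≤ Real.exp √n := by
  simp only [test, fN_eq] at h
  have a := chk_spec B N _ f _ _ _ h (by simp) (by simp) n (by omega) hn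
  have x0 : (2 ^ (B * L) - 1) / (2 ^ B - 1) ≡ V B L [] [MOD (2 ^ B) ^ L] := by
    rw [V, pow_mul, ← Nat.geomSum_eq (Nat.le_self_pow (by omega) 2)]
    simp [cnt, Nat.ModEq]
  have x1 := loop_spec (small N) N 0 _ (runL_spec x0 (small N))
  have x2 := x1.of_dvd (pow_dvd_pow _ (by omega : n + 1 ≤ L))
  rw [zero_add, ← os] at x2
  rw [dg_eq, ← Nat.mod_mul_right_div_self, ← pow_succ, x2, pow_succ, Nat.mod_mul_right_div_self, V,
    dig_sum _ _ _ _ (fun j hj => hb j (by omega)) (by omega)] at a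
  exact a

end Pool.Agent.H.MP_bcad5b_nt
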