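import Pool.Agent.H.MP_bcad5b_nt.C

namespace Pool.Agent.H.MP_bcad5b_nt

open Finset

theorem comp : test 145 10000 10001 20010 = true := by decide +kernel

theorem bd {N n : ℕ} (hN : N = 10000) (hn : n ≤ N) : cnt (os N) n < 2 ^ 145 := by
  have a := big hN.ge hn
  have s : √(N : ℝ) = (100 : ℕ) := by
    rw [hN, Real.sqrt_eq_iff_mul_self_eq (by positivity) (by positivity)]; norm_num
  rw [s, ← mul_one ((100 : ℕ) : ℝ), Real.exp_nat_mul] at a
  have b : Real.exp 1 ^ 100 ≤ (272 / 100) ^ 100 :=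
    pow_le_pow_left₀ (Real.exp_nonneg _) (Real.exp_one_lt_d9.le.trans (by norm_num)) _
  have c : (cnt (os N) n : ℝ) < 2 ^ 145 := (a.trans b).trans_lt (by norm_num)
  exact_mod_cast c

theorem main (n : ℕ) :
    ((univ.image (orderOf : Equiv.Perm (Fin n) → ℕ)).card : ℝ) ≤ Real.exp √n := by
  rcases le_total n 10000 with h | h
  · exact (Nat.cast_le.2 (card_le h)).trans
      (test_spec (by norm_num) rfl (fun _ => bd rfl) comp h)
  · exact (Nat.cast_le.2 (card_le le_rfl)).trans (big h le_rfl)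

end Pool.Agent.H.MP_bcad5b_nt
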